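import Pool.Agent.N236.RT.Main

/-!
# Margulis' injectivity radius conjecture for division algebras of odd degree

All torsion-free arithmetic groups defined by division algebras of odd degree (the number field `L`,
the division algebra and the order are arbitrary; only the dimension of the algebra and the number
of noncompact embeddings are bounded, as they are by the Lie group) form a uniformly discrete
family. More is true: the translation lengths of all their elements `≠ 1` are at least
`c [L : ℚ] ^ (1/2 - ε)`, so the injectivity radius tends to infinity with the degree of `L`.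

These are the lattices in products of groups `SL_n(ℝ)`, `SL_n(ℂ)`, `SU(p, q)` (`p + q = n` odd) given
by the norm one elements, unitary for an involution of the second kind, of an order in a division
algebra of degree `n` over a quadratic extension `L` of a number field `k`. For `n = 3` they are one
of the two types of uniform lattices of `SL_3(ℝ)`, the other type being given by Hermitian forms.

Method. (`Pool.Agent.N236.RT`, parts by many authors.)
* `s_ad`: if `x`, `y` are multiplicatively independent units of a number field `K` of degree `N` then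
  `max (h (x), h (y)) ≥ c N ^ (-1/2 - ε)`. (Amoroso and David proved a sharper bound in 1999.) The
  proof given here is elementary: an auxiliary polynomial in two variables which vanishes to high
  order at `(x, y)` and has small coefficients, extrapolation to `(x ^ p, y ^ p)` for all `p` in a
  range (also for ramified `p`: finite extensions of `ℚ_p` are monogenic), a Bézout bound, and
  the action of the group of points of order `i` and of the Galois group on the curves found.
* An element `γ ≠ 1` of the group generates a field of odd degree over `L`, and its norm is one; if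
  any two of its conjugates over `L` were multiplicatively dependent, all of them would be equal to
  `x` or `x⁻¹` up to roots of unity, which is impossible for an odd number of conjugates with
  product one. Two independent conjugates lie in a field of degree at most `d ^ 2 [L : ℚ]`, and
  have absolute value one except above the noncompact embeddings.

`Pool.Agent.H225R3.MargDefs` contains `IsEig` and `UniformlyDiscrete` (there is an identity
neighbourhood `U` such that `g U g⁻¹` meets every group of the family in the identity only).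
-/

set_option autoImplicit false

namespace Pool.Agent.Results.MP_162bbe_gt.DivisionAlgebras

open NumberField Module Pool.Agent.H225R3.Marg

universe u

/-- A realization of the subgroup `Γ` of `G` by elements of a division algebra `D` over the number
field `L`, with noncompact embeddings `S`: an injective homomorphism `r` to `D`, whose values are
integral and of norm one, such that for every embedding `σ` of `L` outside `S` the roots of
`σ (minpoly (r γ))` have absolute value one, and for `σ` in `S` they are eigenvalues of `ρ γ`. -/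
structure DivisionRealization {G : Type*} [Group G] {M : ℕ}
    (ρ : G →* Matrix (Fin M) (Fin M) ℂ) (Γ : Subgroup G) (L : Type) [Field L] [NumberField L]
    (D : Type) [DivisionRing D] [Algebra L D] (S : Finset (L →+* ℂ)) where
  r : Γ →* D
  injective : Function.Injective r
  integral : ∀ γ : Γ, IsIntegral ℤ (r γ)
  norm_one : ∀ γ : Γ, Algebra.norm L (r γ) = 1
  compact : ∀ σ : L →+* ℂ, σ ∉ S → ∀ (γ : Γ) (z : ℂ),
    ((minpoly L (r γ)).map σ).IsRoot z → ‖z‖ = 1
  eig : ∀ σ ∈ S, ∀ (γ : Γ) (z : ℂ), ((minpoly L (r γ)).map σ).IsRoot z → IsEig (ρ γ) z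

/-- There is no element of finite order other than the identity. -/
def TorsionFree {G : Type*} [Group G] (Γ : Subgroup G) : Prop :=
  ∀ γ ∈ Γ, ∀ N : ℕ, 0 < N → γ ^ N = 1 → γ = 1

/-- The torsion-free subgroups `Γ` of `G` that have a realization in a division algebra, of odd
dimension at most `d`, over a number field `L` of degree at least `m`, with at most `s` noncompact
embeddings. -/
def Family (s d m : ℕ) {G : Type*} [Group G] {M : ℕ} (ρ : G →* Matrix (Fin M) (Fin M) ℂ) :
    Set (Subgroup G) :=
  {Γ | TorsionFree Γ ∧ ∃ (L : Type) (_ : Field L) (_ : NumberField L) (D : Type)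
    (_ : DivisionRing D) (_ : Algebra L D) (_ : FiniteDimensional L D) (S : Finset (L →+* ℂ))
    (_ : DivisionRealization ρ Γ L D S), Odd (finrank L D) ∧ finrank L D ≤ d ∧ S.card ≤ s ∧
    m ≤ finrank ℚ L}

lemma bound (ε : ℝ) (hε : 0 < ε) (hε2 : ε < 1 / 2) (s d : ℕ) : ∃ c : ℝ, 0 < c ∧
    ∀ (G : Type u) [Group G] (M : ℕ) (ρ : G →* Matrix (Fin M) (Fin M) ℂ) (m : ℕ),
      ∀ Γ ∈ Family s d m ρ, ∀ γ ∈ Γ, γ ≠ 1 →
        ∃ l : ℂ, IsEig (ρ γ) l ∧ c * (m : ℝ) ^ (1 / 2 - ε) ≤ Real.log ‖l‖ := by
  obtain ⟨c, hc, h⟩ := Pool.Agent.N236.RT.division_bound Pool.Agent.N236.RT.s_pair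
    Pool.Agent.N42.RT.t_div ε hε hε2 s d
  refine ⟨c, hc, ?_⟩
  rintro G _ M ρ m Γ ⟨htf, L, _, _, D, _, _, _, S, R, hodd, hd, hs, hm⟩ γ hγ hγ1
  obtain ⟨l, hl, hlow⟩ := h G M ρ Γ L D S
    ⟨R.r, R.injective, R.integral, R.norm_one, R.compact, R.eig⟩ htf hodd hd hs γ hγ hγ1
  refine ⟨l, hl, le_trans ?_ hlow⟩
  apply mul_le_mul_of_nonneg_left _ hc.le
  exact Real.rpow_le_rpow (Nat.cast_nonneg m) (by exact_mod_cast hm) (by linarith)

/-- **Margulis' conjecture for division algebras of odd degree.**

1. For `0 < ε < 1/2` and all `s`, `d` there is `c > 0` such that, for every group `Γ` in the family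
   `Family s d m ρ`, every `γ ≠ 1` in `Γ` has an eigenvalue `l` of `ρ γ` with
   `log |l| ≥ c m ^ (1/2 - ε)`. (So `[L : ℚ] = m` is allowed.) The constant does not depend on the
   group `G`, on `Γ`, or on the field and the algebra.
2. For every continuous finite dimensional complex representation `ρ` of a topological group `G` the
   family of all the groups with bounded `s` and `d` (fields `L` of arbitrary degree) is uniformly
   discrete.
3. The injectivity radius tends to infinity with the degree of the field: for every bound `B`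
   there is `m` such that no element `u` of `G` whose matrix `ρ u` has all entries at most `B` in
   absolute value is conjugate to an element `≠ 1` of a group in the family with
   `[L : ℚ] ≥ m`. -/
theorem result :
    (∀ (ε : ℝ), 0 < ε → ε < 1 / 2 → ∀ s d : ℕ, ∃ c : ℝ, 0 < c ∧
      ∀ (G : Type u) [Group G] (M : ℕ) (ρ : G →* Matrix (Fin M) (Fin M) ℂ) (m : ℕ),
      ∀ Γ ∈ Family s d m ρ, ∀ γ ∈ Γ, γ ≠ 1 →
        ∃ l : ℂ, IsEig (ρ γ) l ∧ c * (m : ℝ) ^ (1 / 2 - ε) ≤ Real.log ‖l‖) ∧
    (∀ (G : Type u) [Group G] [TopologicalSpace G] (M : ℕ) (ρ : G →* Matrix (Fin M) (Fin M) ℂ),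
      Continuous ρ → ∀ s d : ℕ, UniformlyDiscrete (Family s d 0 ρ)) ∧
    (∀ (G : Type u) [Group G] (M : ℕ) (ρ : G →* Matrix (Fin M) (Fin M) ℂ) (s d : ℕ) (B : ℝ),
      ∃ m : ℕ, ∀ Γ ∈ Family s d m ρ, ∀ g u : G, (∀ i j, ‖ρ u i j‖ ≤ B) → g * u * g⁻¹ ∈ Γ →
        g * u * g⁻¹ = 1) := by
  refine ⟨fun ε hε hε2 s d => bound ε hε hε2 s d, ?_, ?_⟩
  · intro G _ _ M ρ hρ s d
    obtain ⟨c, hc, h⟩ := bound (1 / 4) (by norm_num) (by norm_num) s d
    refine Pool.Agent.N236.RT.discrete_of_bound ρ hρ c hc _ ?_
    rintro Γ ⟨htf, L, i1, i2, D, i3, i4, i5, S, R, hodd, hd, hs, -⟩ γ hγ hγ1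
    have hm : 1 ≤ finrank ℚ L := finrank_pos
    obtain ⟨l, hl, hlow⟩ := h G M ρ 1 Γ
      ⟨htf, L, i1, i2, D, i3, i4, i5, S, R, hodd, hd, hs, hm⟩ γ hγ hγ1
    rw [Nat.cast_one, Real.one_rpow, mul_one] at hlow
    exact ⟨l, hl, hlow⟩
  · intro G _ M ρ s d B
    obtain ⟨c, hc, h⟩ := bound (1 / 4) (by norm_num) (by norm_num) s d
    have htend : Filter.Tendsto (fun m : ℕ => c * (m : ℝ) ^ (1 / 2 - 1 / 4 : ℝ)) Filter.atTop
        Filter.atTop :=
      Filter.Tendsto.const_mul_atTop hc
        ((tendsto_rpow_atTop (by norm_num)).comp tendsto_natCast_atTop_atTop)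
    obtain ⟨m, hm⟩ := (htend.eventually_gt_atTop (Real.log (M * max B 0 + 1))).exists
    refine ⟨m, ?_⟩
    intro Γ hΓ g u hu hgu
    by_contra hne
    obtain ⟨l, hl, hlow⟩ := h G M ρ m Γ hΓ _ hgu hne
    have h2 : (ρ (g * u * g⁻¹)).charpoly = (ρ u).charpoly := by
      rw [map_mul, map_mul]
      have h4 : ρ g⁻¹ * ρ g = 1 := by rw [← map_mul, inv_mul_cancel, map_one]
      rw [Matrix.charpoly_mul_comm, ← mul_assoc, h4, one_mul]
    rw [IsEig, h2] at hl
    obtain ⟨v, hv, hAv⟩ := exists_eigvec (ρ u) l hl
    have h5 := eig_le (ρ u) l (max B 0) v hv hAv fun i j => (hu i j).trans (le_max_left _ _)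
    have h6 : 0 ≤ (M : ℝ) * max B 0 := by positivity
    have h7 : Real.log ‖l‖ ≤ Real.log (M * max B 0 + 1) := by
      rcases (norm_nonneg l).eq_or_lt with h8 | h8
      · rw [← h8, Real.log_zero]
        exact Real.log_nonneg (by linarith)
      · exact Real.log_le_log h8 (by linarith)
    linarith

end Pool.Agent.Results.MP_162bbe_gt.DivisionAlgebras
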