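import Pool.Agent.N236.RT.Main

/-!
# Margulis' injectivity radius conjecture over fields with a subfield

Fix `α > 0`. All torsion-free arithmetic groups, of any type, over number fields `k` which have a
subfield `k₀` with `[k : k₀] ≤ [k : ℚ] ^ (1 - α)` and such that every embedding of `k₀` extends to an
embedding of `k` at which the group is compact (for instance `[k : k₀]` larger than the number
of noncompact embeddings), realized by integral matrices of a fixed size `n` and with at most `s`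
noncompact embeddings, form a uniformly discrete family; moreover the translation lengths of their
elements `≠ 1` are at least `c [k : ℚ] ^ (α / 2 - ε)`. For instance, if there is only one
noncompact embedding, then it is enough that `k` has a subfield `k₀ ≠ k` of degree at
least `[k : ℚ] ^ α`.

Method. Let `x` be an eigenvalue, not a root of unity, of an element `γ ≠ 1`, and `σ` an embedding of
`k (x)` which expands `x`. There is an embedding `σ'` of `k (x)` with the same restriction to `k₀`
such that `|σ' x| = 1`. So `σ x` and `σ' x` are multiplicatively independent, and they lie in a field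
of degree at most `n ^ 2 [k : k₀] [k : ℚ] ≤ n ^ 2 [k : ℚ] ^ (2 - α)`. The lower bound `c N ^ (-1/2 - ε)`
for the larger height of two independent units of a field of degree `N` (`Pool.Agent.N236.RT.s_ad`,
an elementary proof; a sharper bound is due to Amoroso and David, 1999) is applied.

`Pool.Agent.H225R3.MargDefs` contains the definitions: `Realization ρ Γ k n S` (a homomorphism `r`
from `Γ` to the `n` by `n` matrices over the ring of integers of the number field `k`, bounded under
all embeddings outside `S`, such that for `σ` in `S` the eigenvalues of `σ (r γ)` are eigenvalues of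
`ρ γ`, and such that only `1` is mapped to a unipotent matrix) and `UniformlyDiscrete` (there is an
identity neighbourhood `U` such that `g U g⁻¹` meets every group of the family in the identity only).
-/

set_option autoImplicit false

namespace Pool.Agent.Results.MP_162bbe_gt.Subfields

open NumberField Module Pool.Agent.H225R3.Marg

universe u

/-- There is no element of finite order other than the identity. -/
def TorsionFree {G : Type*} [Group G] (Γ : Subgroup G) : Prop :=
  ∀ γ ∈ Γ, ∀ N : ℕ, 0 < N → γ ^ N = 1 → γ = 1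

/-- Every embedding of `k₀` is the restriction of an embedding of `k` outside `S`. -/
def Avoids (k₀ k : Type) [Field k₀] [Field k] [Algebra k₀ k] (S : Finset (k →+* ℂ)) : Prop :=
  ∀ τ₀ : k₀ →+* ℂ, ∃ τ : k →+* ℂ, τ ∉ S ∧ τ.comp (algebraMap k₀ k) = τ₀

/-- The torsion-free subgroups `Γ` of `G` that have a realization by matrices of size `n`, with a set
`S` of at most `s` noncompact embeddings, over a number field `k` of degree at least `m` which has a
subfield `k₀` such that `Avoids k₀ k S` and `[k : k₀] ≤ [k : ℚ] ^ (1 - α)`. -/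
def Family (α : ℝ) (s n m : ℕ) {G : Type*} [Group G] {M : ℕ}
    (ρ : G →* Matrix (Fin M) (Fin M) ℂ) : Set (Subgroup G) :=
  {Γ | TorsionFree Γ ∧ ∃ (k₀ k : Type) (_ : Field k₀) (_ : NumberField k₀) (_ : Field k)
    (_ : NumberField k) (_ : Algebra k₀ k) (S : Finset (k →+* ℂ)) (_ : Realization ρ Γ k n S),
    S.card ≤ s ∧ Avoids k₀ k S ∧ (finrank k₀ k : ℝ) ≤ (finrank ℚ k : ℝ) ^ (1 - α) ∧
    m ≤ finrank ℚ k}

lemma bound (α ε : ℝ) (hα : 0 < α) (hε : 0 < ε) (hε2 : ε < 1 / 2) (hεα : ε ≤ α / 2) (s n : ℕ) :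
    ∃ c : ℝ, 0 < c ∧
    ∀ (G : Type u) [Group G] (M : ℕ) (ρ : G →* Matrix (Fin M) (Fin M) ℂ) (m : ℕ),
      ∀ Γ ∈ Family α s n m ρ, ∀ γ ∈ Γ, γ ≠ 1 →
        ∃ l : ℂ, IsEig (ρ γ) l ∧ c * (m : ℝ) ^ (α / 2 - ε) ≤ Real.log ‖l‖ := by
  obtain ⟨c, hc, h⟩ := Pool.Agent.N236.RT.subfield_bound Pool.Agent.N236.RT.s_pair
    Pool.Agent.N701.RT.t_IMP α ε hα hε hε2 s n
  refine ⟨c, hc, ?_⟩
  rintro G _ M ρ m Γ ⟨htf, k₀, k, _, _, _, _, _, S, R, hs, hav, hfr, hm⟩ γ hγ hγ1
  obtain ⟨l, hl, hlow⟩ := h G M ρ Γ k₀ k S R htf hs hav hfr γ hγ hγ1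
  refine ⟨l, hl, le_trans ?_ hlow⟩
  apply mul_le_mul_of_nonneg_left _ hc.le
  exact Real.rpow_le_rpow (Nat.cast_nonneg m) (by exact_mod_cast hm) (by linarith)

/-- **Margulis' conjecture over fields with a subfield.**

1. For `α > 0`, `0 < ε < 1/2`, `ε ≤ α/2` and all `s`, `n` there is `c > 0` such that for every group
   `Γ` in `Family α s n m ρ` every `γ ≠ 1` in `Γ` has an eigenvalue `l` of `ρ γ` with
   `log |l| ≥ c m ^ (α/2 - ε)`. The constant does not depend on `G`, `Γ` or the field.
2. For every continuous finite dimensional complex representation `ρ` of a topological group `G`,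
   all `α > 0`, `s` and `n`, the family (fields of arbitrary degree) is uniformly discrete.
3. `Avoids k₀ k S` holds if `|S| < [k : k₀]`. -/
theorem result :
    (∀ (α ε : ℝ), 0 < α → 0 < ε → ε < 1 / 2 → ε ≤ α / 2 → ∀ s n : ℕ, ∃ c : ℝ, 0 < c ∧
      ∀ (G : Type u) [Group G] (M : ℕ) (ρ : G →* Matrix (Fin M) (Fin M) ℂ) (m : ℕ),
      ∀ Γ ∈ Family α s n m ρ, ∀ γ ∈ Γ, γ ≠ 1 →
        ∃ l : ℂ, IsEig (ρ γ) l ∧ c * (m : ℝ) ^ (α / 2 - ε) ≤ Real.log ‖l‖) ∧
    (∀ (G : Type u) [Group G] [TopologicalSpace G] (M : ℕ) (ρ : G →* Matrix (Fin M) (Fin M) ℂ),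
      Continuous ρ → ∀ (α : ℝ), 0 < α → ∀ s n : ℕ, UniformlyDiscrete (Family α s n 0 ρ)) ∧
    (∀ (k₀ k : Type) [Field k₀] [NumberField k₀] [Field k] [NumberField k] [Algebra k₀ k]
      (S : Finset (k →+* ℂ)), S.card < finrank k₀ k → Avoids k₀ k S) := by
  refine ⟨fun α ε hα hε hε2 hεα s n => bound α ε hα hε hε2 hεα s n, ?_, ?_⟩
  · intro G _ _ M ρ hρ α hα s n
    obtain ⟨c, hc, h⟩ := bound α (min (α / 2) (1 / 4)) hα (lt_min (by linarith) (by norm_num))
      (lt_of_le_of_lt (min_le_right _ _) (by norm_num)) (min_le_left _ _) s n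
    refine Pool.Agent.N236.RT.discrete_of_bound ρ hρ c hc _ ?_
    rintro Γ ⟨htf, k₀, k, i1, i2, i3, i4, i5, S, R, hs, hav, hfr, -⟩ γ hγ hγ1
    have hm : 1 ≤ finrank ℚ k := finrank_pos
    obtain ⟨l, hl, hlow⟩ := h G M ρ 1 Γ
      ⟨htf, k₀, k, i1, i2, i3, i4, i5, S, R, hs, hav, hfr, hm⟩ γ hγ hγ1
    rw [Nat.cast_one, Real.one_rpow, mul_one] at hlow
    exact ⟨l, hl, hlow⟩
  · intro k₀ k _ _ _ _ _ S h
    exact Pool.Agent.N236.RT.avoids_of_card k₀ k S h

end Pool.Agent.Results.MP_162bbe_gt.Subfields
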